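import Pool.Agent.H380.CM.ASMH

/-!
# MP_bea28b_al, Q1: a finite simple group need not be characterised by its Cartan matrix in
characteristic 2

The simple group `G = PSL(2,967)`, of order `452115048`, and the group `H = 11^{3+3} : PSL(2,7)`,
of order `297622248`, have the same Cartan matrix over every algebraically closed field of
characteristic 2: one block with Cartan matrix `(2 1 1; 1 3 2; 1 2 3)`, 60 blocks with Cartan
matrix `(4)` and 241 blocks with Cartan matrix `(1)`.
-/

set_option autoImplicit false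
open scoped Matrix MatrixGroups
universe u

namespace Pool.Agent.Results.MP_bea28b_al.SameCartanMatrix

/-- `S` occurs exactly `n` times as a composition factor of `M`: there is a composition series of
`M` exactly `n` of whose factors are isomorphic to `S` (by the Jordan-Hoelder theorem the number
does not depend on the series). -/
def HasMult (A : Type u) [Ring A] (M S : Type u) [AddCommGroup M] [Module A M]
    [AddCommGroup S] [Module A S] (n : ℕ) : Prop :=
  ∃ s : CompositionSeries (Submodule A M), s.head = ⊥ ∧ s.last = ⊤ ∧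
    Nat.card {i : Fin s.length //
      Nonempty ((s i.succ ⧸ (s i.castSucc).submoduleOf (s i.succ)) ≃ₗ[A] S)} = n

/-- `π : P → S` is a projective cover: `P` is projective, `π` is surjective, and its kernel is
superfluous. -/
def IsProjCover (A : Type u) [Ring A] {P S : Type u} [AddCommGroup P] [Module A P]
    [AddCommGroup S] [Module A S] (π : P →ₗ[A] S) : Prop :=
  Module.Projective A P ∧ Function.Surjective π ∧
    ∀ X : Submodule A P, X ⊔ LinearMap.ker π = ⊤ → X = ⊤

/-- `C` is the Cartan matrix of the finite group `G` over `k`, for some labelling by `ι` of the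
isomorphism classes of simple modules: `S i` are representatives of the isomorphism classes of
simple modules, `P i` is the projective cover of `S i`, and `C i j` is the multiplicity of `S j` as
a composition factor of `P i`. -/
def IsCartanMatrix (k : Type u) [Field k] (G : Type) [Group G] {ι : Type} (C : Matrix ι ι ℕ) :
    Prop :=
  ∃ S P : ι → ModuleCat.{u} (MonoidAlgebra k G),
    (∀ i, IsSimpleModule (MonoidAlgebra k G) (S i)) ∧
    (∀ i j, Nonempty (S i ≃ₗ[MonoidAlgebra k G] S j) → i = j) ∧
    (∀ M : ModuleCat.{u} (MonoidAlgebra k G), IsSimpleModule (MonoidAlgebra k G) M →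
      ∃ i, Nonempty (M ≃ₗ[MonoidAlgebra k G] S i)) ∧
    (∀ i, ∃ π : P i →ₗ[MonoidAlgebra k G] S i, IsProjCover (MonoidAlgebra k G) π) ∧
    ∀ i j, HasMult (MonoidAlgebra k G) (P i) (S j) (C i j)

/-- `G` and `H` have the same Cartan matrix over `k`: the Cartan matrices have the same size and
agree after a simultaneous permutation of rows and columns, i.e. one matrix is a Cartan matrix of
both groups (for suitable labellings of the simple modules). -/
def SameCartan (k : Type u) [Field k] (G H : Type) [Group G] [Group H] : Prop :=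
  ∃ (n : ℕ) (C : Matrix (Fin n) (Fin n) ℕ), IsCartanMatrix k G C ∧ IsCartanMatrix k H C

section
variable {k : Type u} [Field k] {G : Type} [Group G]

lemma isCartan_iff {ι : Type} {C : Matrix ι ι ℕ} (h : CM.IsCartan (MonoidAlgebra k G) C) :
    IsCartanMatrix k G C := by
  obtain ⟨S, P, h1, h2, h3, h4, h5⟩ := h
  refine ⟨S, P, h1, h2, h3, fun i => ?_, h5⟩
  obtain ⟨π, hπ⟩ := h4 i
  exact ⟨π, hπ.proj, hπ.surj, hπ.ess⟩

lemma isCartan_reindex {ι κ : Type} (e : κ ≃ ι) {C : Matrix ι ι ℕ} (h : IsCartanMatrix k G C) :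
    IsCartanMatrix k G (C.submatrix e e) := by
  obtain ⟨S, P, h1, h2, h3, h4, h5⟩ := h
  refine ⟨fun i => S (e i), fun i => P (e i), fun i => h1 _, fun i j hij => ?_, fun M hM => ?_,
    fun i => h4 _, fun i j => h5 _ _⟩
  · exact e.injective (h2 _ _ hij)
  · obtain ⟨i, hi⟩ := h3 M hM
    refine ⟨e.symm i, ?_⟩
    change Nonempty (M ≃ₗ[MonoidAlgebra k G] S (e (e.symm i)))
    rw [Equiv.apply_symm_apply]
    exact hi

end

/-- the two conditions on diagonal entries needed to recognise the Cartan matrix -/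
lemma diag_ne {α β : Type} [DecidableEq α] [DecidableEq β] (i j : Fin 3 ⊕ α ⊕ β) (h : i ≠ j) :
    CM.Cm α β i i ≠ CM.Cm α β i j := by
  rcases i with i | i | i <;> rcases j with j | j | j
  · have h' : i ≠ j := fun h' => h (by rw [h'])
    change CM.C3 i i ≠ CM.C3 i j
    fin_cases i <;> fin_cases j <;> first | exact absurd rfl h' | simp [CM.C3]
  · change CM.C3 i i ≠ 0
    fin_cases i <;> simp [CM.C3]
  · change CM.C3 i i ≠ 0
    fin_cases i <;> simp [CM.C3]
  · simp [CM.Cm]
  · have h' : i ≠ j := fun h' => h (by rw [h'])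
    simp [CM.Cm, h']
  · simp [CM.Cm]
  · simp [CM.Cm]
  · simp [CM.Cm]
  · have h' : i ≠ j := fun h' => h (by rw [h'])
    simp [CM.Cm, h']

lemma two_cond : (2 : ZMod 967) ≠ 0 ∧ (2 : ZMod 967) ^ 2 ≠ 1 := by decide

/-- a homomorphism `PSL(2,7) → SL(3,11)` -/
theorem exists_rho : ∃ ρ : PSL(2, ZMod 7) →* SL(3, ZMod 11),
    Nonempty (CM.OD (CM.labAct.comp ρ) {x | x ≠ Sum.inl 0} (Fin 60)) := by
  obtain ⟨ρ, h1, h2⟩ := CM.ORB
  exact ⟨ρ, CM.COMB ρ h1 h2⟩

/-- **Answer to Q1: no.** The finite simple group `PSL(2,967)` is nonabelian, and there is a finite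
group `H` (the group `11^{3+3} : PSL(2,7)`), not isomorphic to it, which has the same Cartan matrix
over every algebraically closed field of characteristic 2. -/
theorem result : Finite PSL(2, ZMod 967) ∧ IsSimpleGroup PSL(2, ZMod 967) ∧
    (∃ a b : PSL(2, ZMod 967), a * b ≠ b * a) ∧
    ∃ (H : Type) (_ : Group H), Finite H ∧ IsEmpty (H ≃* PSL(2, ZMod 967)) ∧
      ∀ (k : Type u) [Field k] [IsAlgClosed k] [CharP k 2], SameCartan k PSL(2, ZMod 967) H := by
  have p7 : Fact (Nat.Prime 7) := ⟨by norm_num⟩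
  have p967 : Fact (Nat.Prime 967) := ⟨by norm_num⟩
  have hF : ∃ a : ZMod 967, a ≠ 0 ∧ a ^ 2 ≠ 1 := ⟨2, two_cond⟩
  obtain ⟨D7⟩ := CM.PSLB 7 (by norm_num)
  obtain ⟨D967⟩ := CM.PSLB 967 (by norm_num)
  have f7 : Finite PSL(2, ZMod 7) := CM.BN_finite D7
  have f967 : Finite PSL(2, ZMod 967) := CM.BN_finite D967
  have hs : IsSimpleGroup PSL(2, ZMod 967) :=
    Matrix.ProjectiveSpecialLinearGroup.rank_two_simple' hF
  obtain ⟨ρ, ⟨D⟩⟩ := exists_rho
  refine ⟨f967, hs, ?_, CM.NN ⋊[CM.actN.comp ρ] PSL(2, ZMod 7), inferInstance, ?_, ?_, ?_⟩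
  · by_contra hcon
    push Not at hcon
    have h1 := SL2Simple.PSL_commutator_eq_top hF
    have h2 : commutator PSL(2, ZMod 967) = ⊥ := by
      rw [commutator_eq_bot_iff_center_eq_top, Subgroup.eq_top_iff']
      intro x
      rw [Subgroup.mem_center_iff]
      intro y
      exact hcon y x
    rw [h1] at h2
    exact absurd h2 top_ne_bot
  · exact Finite.of_equiv _ (SemidirectProduct.equivProd (φ := CM.actN.comp ρ)).symm
  · refine ⟨fun e => ?_⟩
    have h1 := Nat.card_congr e.toEquiv
    have h2 := CM.BN_card (by norm_num) D7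
    have h3 := CM.BN_card (by norm_num) D967
    rw [SemidirectProduct.card, CM.BLK.card_NN] at h1
    omega
  · intro k _ _ _
    have hG := CM.ASMG 967 121 (by decide) (by norm_num) k
    have hK : CM.IdemCartan k (MonoidAlgebra k PSL(2, ZMod 7)) (CM.Cm (Fin 0) (Fin 1)) :=
      CM.ASMG 7 1 (by decide) (by norm_num) k
    have hH := CM.ASMH.main ρ hK D
    have e : Fin 241 ≃ CM.ASMH.Bt :=
      Fintype.equivOfCardEq (by simp [CM.ASMH.Bt])
    have hH' := CM.ASMH.idemCartan_equiv (Equiv.sumCongr (Equiv.refl (Fin 3))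
      (Equiv.sumCongr (Equiv.refl (Fin 60)) e)) hH
    rw [CM.ASMH.Cm_submatrix] at hH'
    have hfin : Finite (CM.NN ⋊[CM.actN.comp ρ] PSL(2, ZMod 7)) :=
      Finite.of_equiv _ (SemidirectProduct.equivProd (φ := CM.actN.comp ρ)).symm
    have e' : Fin 304 ≃ Fin 3 ⊕ Fin 60 ⊕ Fin 241 :=
      Fintype.equivOfCardEq (by simp)
    exact ⟨304, _, isCartan_reindex e' (isCartan_iff (CM.CAR diag_ne hG)),
      isCartan_reindex e' (isCartan_iff (CM.CAR diag_ne hH'))⟩

end Pool.Agent.Results.MP_bea28b_al.SameCartanMatrix
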